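import Mathlib

/-!
# Project HB: `S_f(x) = O(x^(1/3) (log x)^(-2/3))` for all newforms. Statements of the parts
-/

set_option autoImplicit false

namespace Pool.Agent.L7h72.HB

open Finset

/-- `e(x)` -/
noncomputable def ex (x : ℝ) : ℂ := Complex.exp (((2 * Real.pi * x : ℝ) : ℂ) * Complex.I)

/-- multiplicative sequences bounded by the divisor function with bounded mean square -/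
structure Ms (a : ℕ → ℂ) (C₁ : ℝ) : Prop where
  mul : ∀ m n : ℕ, 1 ≤ m → 1 ≤ n → m.Coprime n → a (m * n) = a m * a n
  div : ∀ n : ℕ, 1 ≤ n → ‖a n‖ ≤ (n.divisors.card : ℝ)
  sq : ∀ N : ℕ, ∑ n ∈ Icc 1 N, ‖a n‖ ^ 2 ≤ C₁ * N

/-- (ES) exponential sums with the phase `θ √n`: dyadic blocks and the derivative test
`Pool.Agent.N798.S.S_VD` (proved: `Pool.Agent.N701.S.vd`). -/
def S_ES : Prop := ∀ K : ℕ, ∃ δ C : ℝ, 0 < δ ∧ δ < 1 ∧ 0 < C ∧ ∀ (Y A B : ℕ) (θ : ℝ), 1 ≤ Y → B ≤ Y →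
  1 ≤ |θ| → |θ| ≤ (Y : ℝ) ^ K → ‖∑ n ∈ Ioc A B, ex (θ * √(n : ℝ))‖ ≤ C * (Y : ℝ) ^ (1 - δ)

/-- (SW) Selberg's upper bound weights: `ρ` is the convolution `ρ e = ∑_{[d, d'] = e} λ_d λ_d'`. -/
def S_SW : Prop := ∃ C : ℝ, 0 < C ∧ ∀ D : ℕ, 2 ≤ D → ∃ ρ : ℕ → ℝ, ρ 1 = 1 ∧
  (∀ d : ℕ, D ^ 2 < d → ρ d = 0) ∧ (∀ d : ℕ, |ρ d| ≤ (D : ℝ) ^ 2) ∧
  (∀ n : ℕ, 1 ≤ n → 0 ≤ ∑ d ∈ n.divisors, ρ d) ∧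
  ∀ N : ℕ, ∑ n ∈ Icc 1 N, ∑ d ∈ n.divisors, ρ d ≤ C * (N / Real.log D + (D : ℝ) ^ 4)

/-- (SH) Shiu's theorem on intervals: apply `Pool.Agent.L7h19.RJ.ant_u` with `J = Unit`, `b = 4`, `c = 1`,
`G s = ‖a (s ())‖`. The mean square bound gives `∑_{p ≤ y} ‖a p‖ ^ 2 / p ≤ log log y + O(1)`, hence (Cauchy)
`∑_{p ≤ y} ‖a p‖ / p ≤ log log y + O(1)`. -/
def S_SH : Prop := ∀ (a : ℕ → ℂ) (C₁ : ℝ), Ms a C₁ → ∃ C : ℝ, 0 < C ∧ ∀ A X : ℕ, 1 ≤ X → A ≤ X ^ 5 →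
  ∑ n ∈ Ioc A (A + X), ‖a n‖ ≤ C * X

/-- (MV) the bound of Montgomery and Vaughan for the phase `θ √n`. -/
def S_MV : Prop := ∀ (a : ℕ → ℂ) (C₁ : ℝ) (K : ℕ), Ms a C₁ → ∃ C : ℝ, 0 < C ∧ ∀ (U : ℕ) (θ : ℝ), 2 ≤ U →
  √(U : ℝ) ≤ |θ| → |θ| ≤ (U : ℝ) ^ K →
  ‖∑ n ∈ Icc 1 U, a n * ex (θ * √(n : ℝ))‖ ≤ C * (U / Real.log U)

end Pool.Agent.L7h72.HB
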